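import Pool.Agent.V8H62.ASP.Full

/-!
# MP_9e49d7_an, Q1: asymptotic average shadowing, full support, only one minimal point

The example is the one-sided subshift of all sequences of zeros and ones in which, for every
`j ≥ 1`, any two ones at distance at least `16 ^ j + j` are separated by a run of `j` zeros.
Every point contains arbitrarily long runs of zeros, so that the zero sequence is the only minimal
point; invariant measures charging a given cylinder are found by repeating a word and deleting
sparse long runs; and a pseudo-orbit is corrected by deleting around its breakpoints (at a level
growing with the position) and along a sparse schedule of long runs.
-/

set_option autoImplicit false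

open Pool.Agent.V8H62.ASP

/-- **Negative answer to Q1.** There is a compact metric system with the asymptotic average
shadowing property and an invariant Borel probability measure of full support whose minimal points
are not dense; in fact it has exactly one minimal point. -/
theorem Pool.Agent.Results.MP_9e49d7_an.AaspOneMinimalPoint.result :
    ∃ (X : Type) (_ : MetricSpace X) (_ : CompactSpace X) (f : X → X), Continuous f ∧
      AsymptoticAverageShadowing f ∧ HasFullSupportMeasure f ∧
      (∃ p : X, {x : X | IsMinimalPoint f x} = {p}) ∧ ¬ Dense {x : X | IsMinimalPoint f x} :=
  ⟨Sp, inferInstance, inferInstance, sh, continuous_sh, aasp, full_support, ⟨o, minimal_eq⟩,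
    not_dense_minimal⟩
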