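import Pool.Agent.V8H62.ASP.Full

/-!
# MP_9e49d7_an, Q2: average shadowing, full support, only one minimal point

The example is the one-sided subshift of all sequences of zeros and ones in which, for every
`j ≥ 1`, any two ones at distance at least `16 ^ j + j` are separated by a run of `j` zeros.
-/

set_option autoImplicit false

open Pool.Agent.V8H62.ASP

/-- **Negative answer to Q2.** There is a compact metric system with the average shadowing property
and an invariant Borel probability measure of full support whose minimal points are not dense; in
fact it has exactly one minimal point. -/
theorem Pool.Agent.Results.MP_9e49d7_an.AspOneMinimalPoint.result :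
    ∃ (X : Type) (_ : MetricSpace X) (_ : CompactSpace X) (f : X → X), Continuous f ∧
      AverageShadowing f ∧ HasFullSupportMeasure f ∧
      (∃ p : X, {x : X | IsMinimalPoint f x} = {p}) ∧ ¬ Dense {x : X | IsMinimalPoint f x} :=
  ⟨Sp, inferInstance, inferInstance, sh, continuous_sh, asp, full_support, ⟨o, minimal_eq⟩,
    not_dense_minimal⟩
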